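import Pool.Agent.Helper20.KP.StH

set_option autoImplicit false

namespace Pool.Agent.Helper84.KP

open Pool.Agent.Helper52.KP Pool.Agent.Helper20.KP

private theorem hal_chain {m : ℕ} (ψ : Fin m → MvPolynomial (Fin m) ℂ) (j : Fin m)
    (P : MvPolynomial (Fin m) ℂ) :
    MvPolynomial.pderiv j (MvPolynomial.aeval ψ P) =
      ∑ i, MvPolynomial.aeval ψ (MvPolynomial.pderiv i P) * MvPolynomial.pderiv j (ψ i) := by
  induction P using MvPolynomial.induction_on with
  | C a =>
    have h1 : MvPolynomial.aeval ψ (MvPolynomial.C a) = (MvPolynomial.C a : MvPolynomial (Fin m) ℂ) := by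
      rw [MvPolynomial.aeval_C]; rfl
    rw [h1, MvPolynomial.pderiv_C]
    symm
    refine Finset.sum_eq_zero fun i _ => ?_
    rw [MvPolynomial.pderiv_C, map_zero, zero_mul]
  | add p q hp hq =>
    rw [map_add, map_add, hp, hq, ← Finset.sum_add_distrib]
    refine Finset.sum_congr rfl fun i _ => ?_
    rw [map_add, map_add, add_mul]
  | mul_X p n hp =>
    rw [map_mul, MvPolynomial.aeval_X, MvPolynomial.pderiv_mul, hp, Finset.sum_mul]
    have h2 : ∀ i, MvPolynomial.aeval ψ (MvPolynomial.pderiv i (p * MvPolynomial.X n)) *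
        MvPolynomial.pderiv j (ψ i) =
        MvPolynomial.aeval ψ (MvPolynomial.pderiv i p) * MvPolynomial.pderiv j (ψ i) * ψ n +
        (if n = i then MvPolynomial.aeval ψ p * MvPolynomial.pderiv j (ψ i) else 0) := by
      intro i
      rw [MvPolynomial.pderiv_mul, map_add, map_mul, map_mul, MvPolynomial.aeval_X,
        MvPolynomial.pderiv_X]
      by_cases h : n = i
      · subst h
        simp only [Pi.single_eq_same, map_one, if_true]
        ring
      · rw [if_neg h, Pi.single_eq_of_ne h, map_zero]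
        ring
    rw [Finset.sum_congr rfl fun i _ => h2 i, Finset.sum_add_distrib]
    congr 1
    rw [Finset.sum_ite_eq]
    simp

private theorem hal_deg {m n : ℕ} (i : Fin m) (P : MvPolynomial (Fin m) ℂ)
    (h : P.totalDegree ≤ n + 1) : (MvPolynomial.pderiv i P).totalDegree ≤ n := by
  rw [MvPolynomial.totalDegree]
  refine Finset.sup_le fun s hs => ?_
  rw [MvPolynomial.mem_support_iff, MvPolynomial.coeff_pderiv] at hs
  have h1 : s + Finsupp.single i 1 ∈ P.support := by
    rw [MvPolynomial.mem_support_iff]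
    exact left_ne_zero_of_mul hs
  have h2 := (MvPolynomial.le_totalDegree h1).trans h
  have h3 : ((s + Finsupp.single i 1).sum fun _ e => e) = (s.sum fun _ e => e) + 1 := by
    rw [Finsupp.sum_add_index' (fun _ => rfl) (fun _ _ _ => rfl),
      Finsupp.sum_single_index rfl]
  omega

private theorem hal_const {m : ℕ} (P : MvPolynomial (Fin m) ℂ)
    (h : ∀ i, MvPolynomial.pderiv i P = 0) : P = MvPolynomial.C (MvPolynomial.coeff 0 P) := by
  classical
  ext s
  rw [MvPolynomial.coeff_C]
  by_cases hs : (0 : Fin m →₀ ℕ) = s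
  · rw [if_pos hs, hs]
  · rw [if_neg hs]
    obtain ⟨i, hi⟩ : ∃ i, s i ≠ 0 := by
      by_contra hcon
      push Not at hcon
      exact hs (Finsupp.ext fun i => (hcon i).symm)
    have h1 := MvPolynomial.coeff_pderiv (i := i) P (s - Finsupp.single i 1)
    have h2 : s - Finsupp.single i 1 + Finsupp.single i 1 = s := by
      apply tsub_add_cancel_of_le
      rw [Finsupp.single_le_iff]
      omega
    rw [h i, MvPolynomial.coeff_zero, h2] at h1
    have h3 : (((s - Finsupp.single i 1 : Fin m →₀ ℕ) i : ℕ) : ℂ) + 1 ≠ 0 := by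
      exact Nat.cast_add_one_ne_zero _
    rcases mul_eq_zero.1 h1.symm with h4 | h4
    · exact h4
    · exact absurd h4 h3

private theorem hal_one {m : ℕ} (ψ : Fin m → MvPolynomial (Fin m) ℂ) (hψ : jac ψ ≠ 0) :
    ∀ (n : ℕ) (P : MvPolynomial (Fin m) ℂ), P.totalDegree ≤ n → MvPolynomial.aeval ψ P = 0 →
      P = 0 := by
  have hc : ∀ a : ℂ, MvPolynomial.aeval ψ (MvPolynomial.C a : MvPolynomial (Fin m) ℂ) = 0 →
      a = 0 := by
    intro a ha
    rw [MvPolynomial.aeval_C] at ha
    exact (MvPolynomial.C_eq_zero).1 ha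
  intro n
  induction n with
  | zero =>
    intro P hP h0
    have h1 := MvPolynomial.totalDegree_eq_zero_iff_eq_C.1 (Nat.le_zero.1 hP)
    rw [h1] at h0
    rw [h1, hc _ h0, map_zero]
  | succ n ih =>
    intro P hP h0
    have h1 : (fun i => MvPolynomial.aeval ψ (MvPolynomial.pderiv i P)) = 0 := by
      apply Matrix.eq_zero_of_vecMul_eq_zero hψ
      funext j
      have h2 := hal_chain ψ j P
      rw [h0, map_zero] at h2
      simp only [Matrix.vecMul, dotProduct, Matrix.of_apply, Pi.zero_apply]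
      exact h2.symm
    have h3 := hal_const P fun i => ih _ (hal_deg i P hP) (congrFun h1 i)
    rw [h3] at h0
    rw [h3, hc _ h0, map_zero]

theorem hHAL : Pool.Agent.Helper20.KP.StHAL := by
  intro m ψ hψ
  have hinj : ∀ P : MvPolynomial (Fin m) ℂ, MvPolynomial.aeval ψ P = 0 → P = 0 :=
    fun P hP => hal_one ψ hψ _ P le_rfl hP
  refine ⟨fun P hP h => hP (hinj P h), ?_⟩
  intro A B hA hB
  have hind : AlgebraicIndependent ℂ ψ := by
    rw [algebraicIndependent_iff]
    exact hinj
  have hbas : IsTranscendenceBasis ℂ ψ := by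
    refine hind.isTranscendenceBasis_of_lift_trdeg_le_of_finite ?_
    rw [MvPolynomial.trdeg_of_isDomain]
    simp
  have halg : Algebra.IsAlgebraic (Algebra.adjoin ℂ (Set.range ψ)) (MvPolynomial (Fin m) ℂ) :=
    hbas.isAlgebraic
  let K := FractionRing (MvPolynomial (Fin m) ℂ)
  have hiK : Function.Injective (algebraMap (MvPolynomial (Fin m) ℂ) K) :=
    IsFractionRing.injective _ _
  have hBK : algebraMap (MvPolynomial (Fin m) ℂ) K B ≠ 0 := by
    intro h
    exact hB (hiK (by rw [h, map_zero]))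
  have hAK : algebraMap (MvPolynomial (Fin m) ℂ) K A ≠ 0 := by
    intro h
    exact hA (hiK (by rw [h, map_zero]))
  have hAa : IsAlgebraic (Algebra.adjoin ℂ (Set.range ψ))
      (algebraMap (MvPolynomial (Fin m) ℂ) K A) := (halg.isAlgebraic A).algebraMap
  have hBa : IsAlgebraic (Algebra.adjoin ℂ (Set.range ψ))
      (algebraMap (MvPolynomial (Fin m) ℂ) K B) := (halg.isAlgebraic B).algebraMap
  have hq : IsAlgebraic (Algebra.adjoin ℂ (Set.range ψ))
      (algebraMap (MvPolynomial (Fin m) ℂ) K A * (algebraMap (MvPolynomial (Fin m) ℂ) K B)⁻¹) :=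
    hAa.mul hBa.inv
  obtain ⟨q, hq0, hq⟩ := hq.exists_nonzero_coeff_and_aeval_eq_zero
    (mem_nonZeroDivisors_of_ne_zero (mul_ne_zero hAK (inv_ne_zero hBK)))
  have hpre : ∀ i, ∃ c : MvPolynomial (Fin m) ℂ,
      MvPolynomial.aeval ψ c = (q.coeff i : MvPolynomial (Fin m) ℂ) := by
    intro i
    have h : ∀ x : MvPolynomial (Fin m) ℂ, x ∈ Algebra.adjoin ℂ (Set.range ψ) →
        ∃ c : MvPolynomial (Fin m) ℂ, MvPolynomial.aeval ψ c = x := by
      intro x hx
      rw [Algebra.adjoin_range_eq_range_aeval] at hx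
      exact hx
    exact h _ (q.coeff i).2
  choose c hc using hpre
  refine ⟨q.natDegree, c, ?_, ?_⟩
  · intro h
    apply hq0
    apply Subtype.ext
    rw [← hc 0, h, map_zero]
    rfl
  · apply hiK
    rw [map_zero, map_sum]
    rw [Polynomial.aeval_eq_sum_range] at hq
    have h1 := congrArg (fun x => x * (algebraMap (MvPolynomial (Fin m) ℂ) K B) ^ q.natDegree) hq
    simp only [zero_mul, Finset.sum_mul] at h1
    rw [← h1]
    refine Finset.sum_congr rfl fun i hi => ?_
    have hi' : i ≤ q.natDegree := by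
      rw [Finset.mem_range] at hi
      omega
    have h2 : (algebraMap (MvPolynomial (Fin m) ℂ) K B) ^ q.natDegree =
        (algebraMap (MvPolynomial (Fin m) ℂ) K B) ^ i *
          (algebraMap (MvPolynomial (Fin m) ℂ) K B) ^ (q.natDegree - i) := by
      rw [← pow_add]
      congr 1
      omega
    rw [hc i, map_mul, map_mul, map_pow, map_pow, Algebra.smul_def, h2, mul_pow, inv_pow]
    have h3 : algebraMap (Algebra.adjoin ℂ (Set.range ψ)) K (q.coeff i) =
        algebraMap (MvPolynomial (Fin m) ℂ) K (q.coeff i : MvPolynomial (Fin m) ℂ) := rfl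
    rw [h3]
    have h4 : (algebraMap (MvPolynomial (Fin m) ℂ) K B) ^ i ≠ 0 := pow_ne_zero _ hBK
    have h5 : ((algebraMap (MvPolynomial (Fin m) ℂ) K B) ^ i)⁻¹ *
        (algebraMap (MvPolynomial (Fin m) ℂ) K B) ^ i = 1 := inv_mul_cancel₀ h4
    linear_combination (-(algebraMap (MvPolynomial (Fin m) ℂ) K
      (q.coeff i : MvPolynomial (Fin m) ℂ) * (algebraMap (MvPolynomial (Fin m) ℂ) K A) ^ i *
      (algebraMap (MvPolynomial (Fin m) ℂ) K B) ^ (q.natDegree - i))) * h5

end Pool.Agent.Helper84.KP
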