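import Pool.Agent.Helper52.KP.StG

set_option autoImplicit false

namespace Pool.Agent.Helper84.KP

open Pool.Agent.Helper52.KP Pool.Agent.Helper67.NO

universe u

private theorem lft_symm_co {g : Type u} [LieRing g] [LieAlgebra ℂ g] [FiniteDimensional ℂ g]
    (y : g) : (Module.finBasis ℂ g).equivFun.symm (co y) = y := by
  have : co y = (Module.finBasis ℂ g).equivFun y := by
    ext i
    simp [co]
  rw [this, LinearEquiv.symm_apply_apply]

private theorem lft_size {g : Type u} [LieRing g] [LieAlgebra ℂ g] [FiniteDimensional ℂ g]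
    (y x : g) : size (y - x) = ∑ i, ‖co y i - co x i‖ := by
  unfold size co
  refine Finset.sum_congr rfl fun i _ => ?_
  rw [map_sub, Finsupp.sub_apply]

private theorem lft_orb_zero {g : Type u} [LieRing g] [LieAlgebra ℂ g] [FiniteDimensional ℂ g]
    (y : g) (h : Orb (0 : g) y) : y = 0 := by
  induction h with
  | base => rfl
  | step y x _ ih => rw [ih, map_zero]

theorem hLFT (hNEA : StNEA.{u}) (hORB : StORB.{u}) : StLFT.{u} := by
  intro g _ _ _ _ x₀ hx₀ hnil p V hV Ψ hΨ hOrb z₀ hz₀ k X hX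
  obtain ⟨-, -, hsym, hchart, -, -, -⟩ := hORB g
  have hprop : ∀ z ∈ V, rk (Ψ z) = rk x₀ ∧ IsNilpotent (LieAlgebra.ad ℂ g (Ψ z)) := by
    intro z hz
    obtain ⟨-, h2, h3⟩ := hsym x₀ (Ψ z) (hOrb z hz)
    exact ⟨h2, h3 hnil⟩
  have hne : Ψ z₀ ≠ 0 := by
    intro h0
    have h1 := (hsym x₀ (Ψ z₀) (hOrb z₀ hz₀)).1
    rw [h0] at h1
    exact hx₀ (lft_orb_zero x₀ h1)
  obtain ⟨W, δ, ε, hδ, hε, hWd, hW1, hW2⟩ := hNEA g (Ψ z₀) hne (hprop z₀ hz₀).2 k X hX
  have hcont : ContinuousOn (fun z => size (Ψ z - Ψ z₀)) V := by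
    have h1 : ContinuousOn (fun z => co (Ψ z)) V := hΨ.continuousOn
    have h2 : (fun z => size (Ψ z - Ψ z₀)) = fun z => ∑ i, ‖co (Ψ z) i - co (Ψ z₀) i‖ := by
      funext z
      exact lft_size _ _
    rw [h2]
    refine continuousOn_finsetSum _ fun i _ => ?_
    exact (((continuousOn_pi.1 h1) i).sub continuousOn_const).norm
  refine ⟨V ∩ (fun z => size (Ψ z - Ψ z₀)) ⁻¹' Set.Iio δ, fun z => W (Ψ z),
    hcont.isOpen_inter_preimage hV isOpen_Iio, ⟨hz₀, ?_⟩, Set.inter_subset_left, ?_, ?_, ?_⟩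
  · simp only [Set.mem_preimage, Set.mem_Iio, sub_self]
    have : size (0 : g) = 0 := by
      simp [size]
    rw [this]
    exact hδ
  · have h1 : DifferentiableOn ℂ (fun z => co (Ψ z))
        (V ∩ (fun z => size (Ψ z - Ψ z₀)) ⁻¹' Set.Iio δ) := hΨ.mono Set.inter_subset_left
    have h2 := hWd.comp h1 (by
      rintro z ⟨-, hz⟩
      simp only [Set.mem_preimage, Set.mem_Iio, lft_size] at hz
      exact hz)
    refine h2.congr fun z _ => ?_
    simp only [Function.comp_apply, lft_symm_co]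
  · have h := (hW2 0 (by simpa using hε)).2
    rw [(hchart k (Ψ z₀) X).2.1] at h
    exact h
  · rintro z ⟨hz, hz'⟩
    refine hW1 (Ψ z) hz' (hprop z hz).2 ?_
    rw [(hprop z hz).1, (hprop z₀ hz₀).1]

end Pool.Agent.Helper84.KP
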